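import Mathlib
/-!
# Finite-dimensional duality for pairings which factor through a finite-dimensional space
-/
set_option autoImplicit false

namespace Pool.Agent.Q16.AC

open Module

/-- A pairing `T : A × B → ℚ` which factors through a pairing of finite-dimensional spaces over a
field `F` of characteristic zero: finitely many elements of `A` have the same common kernel in `B`
as all elements. -/
theorem exists_finite {A B : Type*} [AddCommGroup A] [Module ℚ A] [AddCommGroup B] [Module ℚ B]
    (T : A →ₗ[ℚ] B →ₗ[ℚ] ℚ) {F V : Type*} [Field F] [CharZero F] [AddCommGroup V] [Module F V]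
    [FiniteDimensional F V] (a : A →+ V) (b : B →+ Dual F V)
    (h : ∀ x y, ((T x y : ℚ) : F) = b y (a x)) :
    ∃ s : Set A, s.Finite ∧ ∀ y, (∀ x ∈ s, T x y = 0) → ∀ x, T x y = 0 := by
  obtain ⟨t, ht, hspan, hind⟩ := exists_linearIndependent F (Set.range a)
  have htf : t.Finite := hind.setFinite
  choose! g hg using fun w (hw : w ∈ t) => ht hw
  refine ⟨g '' t, htf.image g, fun y hy x => ?_⟩
  have h1 : a x ∈ Submodule.span F t := by
    rw [hspan]
    exact Submodule.subset_span ⟨x, rfl⟩
  have h2 : ∀ w ∈ Submodule.span F t, b y w = 0 := by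
    intro w hw
    induction hw using Submodule.span_induction with
    | mem w hw =>
      rw [← hg w hw, ← h, hy _ ⟨w, hw, rfl⟩, Rat.cast_zero]
    | zero => exact map_zero _
    | add w w' _ _ h h' => rw [map_add, h, h', add_zero]
    | smul r w _ h => rw [map_smul, h, smul_zero]
  have h3 := h2 _ h1
  rw [← h] at h3
  exact_mod_cast h3

/-- If a functional on `B` vanishes on the common kernel of the functionals `T x`, it is one of
them. -/
theorem mem_range {A B : Type*} [AddCommGroup A] [Module ℚ A] [AddCommGroup B] [Module ℚ B]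
    (T : A →ₗ[ℚ] B →ₗ[ℚ] ℚ) {F V : Type*} [Field F] [CharZero F] [AddCommGroup V] [Module F V]
    [FiniteDimensional F V] (a : A →+ V) (b : B →+ Dual F V)
    (h : ∀ x y, ((T x y : ℚ) : F) = b y (a x)) (φ : B →ₗ[ℚ] ℚ)
    (hφ : ∀ y, (∀ x, T x y = 0) → φ y = 0) : ∃ x, T x = φ := by
  obtain ⟨s, hs, hsy⟩ := exists_finite T a b h
  have hfin : Finite s := hs
  have h1 : φ ∈ Submodule.span ℚ (Set.range fun x : s => T x) := by
    refine mem_span_of_iInf_ker_le_ker fun y hy => ?_
    rw [Submodule.mem_iInf] at hy
    rw [LinearMap.mem_ker]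
    exact hφ y (hsy y fun x hx => by simpa using hy ⟨x, hx⟩)
  have h2 : Submodule.span ℚ (Set.range fun x : s => T x) ≤ LinearMap.range T := by
    rw [Submodule.span_le]
    rintro _ ⟨x, rfl⟩
    exact ⟨x, rfl⟩
  exact h2 h1

end Pool.Agent.Q16.AC
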