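import Pool.Agent.Q16.AC.Defs
import Pool.Agent.Q16.AC.Lin
/-!
# The radical criterion
-/
set_option autoImplicit false

namespace Pool.Agent.Q16.AC

universe u

namespace Arith

variable {D : Arith.{u}}

section calculus

variable {X : D.Model} {i j : ℤ} {v : D.Place X}

@[simp] theorem gen_zero : D.gen (0 : D.Ch X i) = 0 := map_zero _

theorem gen_sub (a b : D.Ch X i) : D.gen (a - b) = D.gen a - D.gen b := map_sub _ _ _

theorem gen_smul (r : ℚ) (a : D.Ch X i) : D.gen (r • a) = r • D.gen a := map_smul _ _ _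

theorem gen_sum {ι : Type*} (s : Finset ι) (a : ι → D.Ch X i) :
    D.gen (∑ t ∈ s, a t) = ∑ t ∈ s, D.gen (a t) := map_sum _ _ _

theorem isFin_iff {c : D.Ch X i} : D.IsFin c ↔ D.gen c = 0 := Iff.rfl

theorem isHom_iff {c : D.Ch X i} : D.IsHom c ↔ D.gen c ∈ D.triv X i := Iff.rfl

theorem isFin_sub_iff {a b : D.Ch X i} : D.IsFin (a - b) ↔ D.gen a = D.gen b := by
  rw [isFin_iff, gen_sub, sub_eq_zero]

theorem num_sub (a b : D.Ch X i) (z : D.Fib X v j) : D.num (a - b) z = D.num a z - D.num b z := by
  unfold num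
  rw [map_sub, LinearMap.sub_apply]

theorem num_add (a b : D.Ch X i) (z : D.Fib X v j) : D.num (a + b) z = D.num a z + D.num b z := by
  unfold num
  rw [map_add, LinearMap.add_apply]

theorem num_smul (r : ℚ) (a : D.Ch X i) (z : D.Fib X v j) : D.num (r • a) z = r * D.num a z := by
  unfold num
  rw [map_smul, LinearMap.smul_apply, smul_eq_mul]

@[simp] theorem num_zero (z : D.Fib X v j) : D.num (0 : D.Ch X i) z = 0 := by
  unfold num
  rw [map_zero, LinearMap.zero_apply]

theorem num_sum {ι : Type*} (s : Finset ι) (a : ι → D.Ch X i) (z : D.Fib X v j) :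
    D.num (∑ t ∈ s, a t) z = ∑ t ∈ s, D.num (a t) z := by
  unfold num
  rw [map_sum, LinearMap.sum_apply]

@[simp] theorem pair_zero_right (a : D.Ch X i) : D.pair a (0 : D.Ch X j) = 0 := map_zero _

@[simp] theorem pair_zero_left (a : D.Ch X j) : D.pair (0 : D.Ch X i) a = 0 := by
  unfold pair
  rw [map_zero, LinearMap.zero_apply]

theorem pair_add_right (a : D.Ch X i) (b c : D.Ch X j) :
    D.pair a (b + c) = D.pair a b + D.pair a c := map_add _ _ _

theorem pair_smul_left (r : ℚ) (a : D.Ch X i) (b : D.Ch X j) :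
    D.pair (r • a) b = (r : ℝ) * D.pair a b := by
  unfold pair
  rw [map_smul, LinearMap.smul_apply, Rat.smul_def]

end calculus

/-- the fibral classes are sums of classes in fibres: an induction principle -/
theorem Basic.fin_induction (h : D.Basic) {X : D.Model} {j : ℤ} {P : D.Ch X j → Prop}
    (h0 : ∀ v (z : D.Fib X v j), P (D.cls z)) (hz : P 0)
    (hadd : ∀ a b, P a → P b → P (a + b)) {z : D.Ch X j} (hzz : D.IsFin z) : P z := by
  have h1 : z ∈ ⨆ v, LinearMap.range (D.inc X v j) := by
    rw [← h.ker]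
    exact hzz
  refine Submodule.iSup_induction _ (motive := P) h1 ?_ hz hadd
  rintro v _ ⟨w, rfl⟩
  exact h0 v w

theorem Basic.isFin_cls (h : D.Basic) {X : D.Model} {j : ℤ} {v : D.Place X}
    (z : D.Fib X v j) : D.IsFin (D.cls z) := by
  have h1 : D.cls z ∈ LinearMap.ker (D.res X j) := by
    rw [h.ker]
    exact Submodule.mem_iSup_of_mem v ⟨z, rfl⟩
  exact h1

/-- orthogonality to all fibral classes in terms of intersection numbers in the fibres -/
theorem Basic.orth_iff (h : D.Basic) {X : D.Model} {i j : ℤ} (hij : i + j = D.dim X + 1)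
    {b : D.Ch X i} (hb : D.IsHom b) :
    (∀ z : D.Ch X j, D.IsFin z → D.pair b z = 0) ↔ ∀ v (z : D.Fib X v j), D.num b z = 0 := by
  constructor
  · intro hz v z
    have h1 := hz _ (h.isFin_cls z)
    rw [h.gs_fib X i j hij b hb] at h1
    rcases mul_eq_zero.1 h1 with h2 | h2
    · exact absurd h2 (Real.log_pos (h.norm_gt X v)).ne'
    · exact_mod_cast h2
  · intro hz z hzz
    refine h.fin_induction (P := fun z => D.pair b z = 0) (fun v w => ?_) (pair_zero_right _)
      (fun a b ha hb => ?_) hzz
    · rw [h.gs_fib X i j hij b hb, hz, Rat.cast_zero, mul_zero]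
    · rw [pair_add_right, ha, hb, add_zero]

/-- the functional of a class `c` on the cycles in the fibre over `v` is given by a fibral class -/
theorem Basic.exists_fib (h : D.Basic) {X : D.Model} {i j : ℤ}
    (hij : i + j = D.dim X + 1) (hrad : D.Rad X i j) {c : D.Ch X i}
    (hc : D.IsHom c) (v : D.Place X) :
    ∃ f : D.Fib X v i, ∀ z : D.Fib X v j, D.num (D.cls f) z = D.num c z := by
  obtain ⟨F, hF, hF0, V, hV, hVF, hVd, a, b, hab⟩ := h.ell X v i j hij
  obtain ⟨f, hf⟩ := mem_range ((D.deg X v i j).comp (D.inc X v i))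
    (a.comp (D.inc X v i).toAddMonoidHom) b (fun x y => hab _ _) (D.deg X v i j c)
    (fun z hz => hrad v z hz c hc)
  exact ⟨f, fun z => by
    unfold num
    rw [← hf]
    rfl⟩

theorem Basic.lifts_iff (h : D.Basic) {X : D.Model} {i j : ℤ}
    (hij : i + j = D.dim X + 1) : D.Lifts X i j ↔ D.Rad X i j := by
  classical
  constructor
  · intro hl v z hz c hc
    obtain ⟨b, hb, hbz⟩ := hl _ hc
    have hbc : D.IsHom b := by
      rw [isHom_iff, hb]
      exact hc
    have h1 : D.num b z = 0 := (h.orth_iff hij hbc).1 hbz v z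
    have h2 : D.IsFin (c - b) := isFin_sub_iff.2 hb.symm
    have h3 : D.num (c - b) z = 0 := by
      refine h.fin_induction (P := fun w => D.num w z = 0) (fun w f => ?_) (num_zero _)
        (fun a b ha hb => ?_) h2
      · by_cases hw : w = v
        · subst hw
          exact hz f
        · exact h.disj X w v i j hw hij f z
      · rw [num_add, ha, hb, add_zero]
    rw [num_sub, h1, sub_zero] at h3
    exact h3
  · intro hrad c0 hc0
    obtain ⟨c, rfl⟩ := h.surj X i c0
    choose f hf using fun v => h.exists_fib hij hrad (c := c) hc0 v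
    have hfin := h.good X i j hij
    set s := hfin.toFinset with hs
    have hg : D.gen (c - ∑ v ∈ s, D.cls (f v)) = D.gen c := by
      rw [gen_sub, gen_sum,
        Finset.sum_eq_zero (f := fun v => D.gen (D.cls (f v))) fun v _ => h.isFin_cls (f v),
        sub_zero]
    refine ⟨c - ∑ v ∈ s, D.cls (f v), hg, ?_⟩
    refine (h.orth_iff hij (by rw [isHom_iff, hg]; exact hc0)).2 fun w z => ?_
    rw [num_sub, num_sum]
    by_cases hw : w ∈ s
    · rw [Finset.sum_eq_single_of_mem w hw fun v _ hv => h.disj X v w i j hv hij _ _, hf,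
        sub_self]
    · rw [Finset.sum_eq_zero fun v hv => h.disj X v w i j (fun e => hw (e ▸ hv)) hij _ _,
        sub_zero]
      by_contra hne
      refine hw ?_
      rw [hs, Set.Finite.mem_toFinset]
      exact ⟨c, hc0, z, hne⟩

end Arith

end Pool.Agent.Q16.AC
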