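import Mathlib
/-!
# Chow groups of regular models over rings of integers: the data and the known properties

`Arith` collects the Chow groups (with rational coefficients) of the regular proper flat models `𝒳`
over rings of integers of number fields (with smooth generic fibre `X`), the Chow groups of the
generic fibres and of the closed fibres, the intersection numbers over the closed points and the
Gillet–Soulé pairing.
-/
set_option autoImplicit false

namespace Pool.Agent.Q16.AC

universe u

/-- The data: models `𝒳`, their Chow groups and pairings. -/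
structure Arith where
  /-- the regular proper flat models `𝒳` over the rings of integers of number fields -/
  Model : Type u
  /-- the dimension `d` of the generic fibre `X` of `𝒳` -/
  dim : Model → ℤ
  /-- `Ch^i(𝒳)_ℚ` -/
  Ch : Model → ℤ → Type u
  /-- `Ch^i(X)_ℚ`, `X` the generic fibre of `𝒳` -/
  Gen : Model → ℤ → Type u
  [chGrp : ∀ X i, AddCommGroup (Ch X i)]
  [chMod : ∀ X i, Module ℚ (Ch X i)]
  [genGrp : ∀ X i, AddCommGroup (Gen X i)]
  [genMod : ∀ X i, Module ℚ (Gen X i)]
  /-- restriction to the generic fibre -/
  res : ∀ X i, Ch X i →ₗ[ℚ] Gen X i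
  /-- `Ch^i(X)_{ℚ,0}`, the cohomologically trivial classes -/
  triv : ∀ X i, Submodule ℚ (Gen X i)
  /-- the closed points `v` of the base `Spec O_E` -/
  Place : Model → Type u
  /-- the number of elements of the residue field of `v` -/
  norm : ∀ X, Place X → ℝ
  /-- the Chow group (with rational coefficients) of the cycles on the fibre `𝒳_v` which have
  codimension `j` in `𝒳` -/
  Fib : ∀ X, Place X → ℤ → Type u
  [fibGrp : ∀ X v j, AddCommGroup (Fib X v j)]
  [fibMod : ∀ X v j, Module ℚ (Fib X v j)]
  /-- the map of the cycles on `𝒳_v` to the Chow group of `𝒳` -/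
  inc : ∀ X v j, Fib X v j →ₗ[ℚ] Ch X j
  /-- the degree over the residue field of `v` of the intersection `c · z` of a class `c` on `𝒳` with
  a cycle class `z` on `𝒳_v` of complementary codimension -/
  deg : ∀ X v i j, Ch X i →ₗ[ℚ] Fib X v j →ₗ[ℚ] ℚ
  /-- the Gillet–Soulé pairing of cohomologically trivial classes (extended in any bilinear way to
  the other classes) -/
  gs : ∀ X i j, Ch X i →ₗ[ℚ] Ch X j →ₗ[ℚ] ℝ

attribute [instance] Arith.chGrp Arith.chMod Arith.genGrp Arith.genMod Arith.fibGrp Arith.fibMod

namespace Arith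

variable (D : Arith.{u})

/-- the restriction of a class of `𝒳` to the generic fibre -/
noncomputable def gen {X : D.Model} {i : ℤ} (c : D.Ch X i) : D.Gen X i := D.res X i c

/-- the class `c` lies in `Ch^i_fin(𝒳)_ℚ`, the kernel of the restriction to the generic fibre -/
def IsFin {X : D.Model} {i : ℤ} (c : D.Ch X i) : Prop := D.res X i c = 0

/-- the class `c` lies in `Ch^i(𝒳)_{ℚ,0}`: its restriction to the generic fibre is
cohomologically trivial -/
def IsHom {X : D.Model} {i : ℤ} (c : D.Ch X i) : Prop := D.res X i c ∈ D.triv X i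

/-- the class on `𝒳` of a cycle `z` on `𝒳_v` -/
noncomputable def cls {X : D.Model} {v : D.Place X} {j : ℤ} (z : D.Fib X v j) : D.Ch X j := D.inc X v j z

/-- the intersection number of `c` and a cycle `z` on `𝒳_v` -/
noncomputable def num {X : D.Model} {v : D.Place X} {i j : ℤ} (c : D.Ch X i) (z : D.Fib X v j) : ℚ :=
  D.deg X v i j c z

/-- the Gillet–Soulé pairing -/
noncomputable def pair {X : D.Model} {i j : ℤ} (b : D.Ch X i) (c : D.Ch X j) : ℝ := D.gs X i j b c

/-- Q1 for the model `𝒳` and complementary codimensions `i`, `j`: every class in `Ch^i(X)_{ℚ,0}` is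
the restriction of a class of `𝒳` whose Gillet–Soulé pairing with all classes in
`Ch^j_fin(𝒳)_ℚ`, the kernel of the restriction, is zero. -/
def Lifts (X : D.Model) (i j : ℤ) : Prop :=
  ∀ c ∈ D.triv X i, ∃ b : D.Ch X i, D.gen b = c ∧ ∀ z : D.Ch X j, D.IsFin z → D.pair b z = 0

/-- Q1 for `𝒳` and `i`. -/
def Q1 (X : D.Model) (i : ℤ) : Prop := D.Lifts X i (D.dim X + 1 - i)

/-- The criterion: if a cycle class `z` on a fibre `𝒳_v`, of codimension `j` in `𝒳`, has
intersection number `0` with all cycles of codimension `i` supported in `𝒳_v`, then it has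
intersection number `0` with all classes in `Ch^i(𝒳)_{ℚ,0}`. -/
def Rad (X : D.Model) (i j : ℤ) : Prop :=
  ∀ v (z : D.Fib X v j), (∀ f : D.Fib X v i, D.num (D.cls f) z = 0) →
    ∀ c : D.Ch X i, D.IsHom c → D.num c z = 0

/-- The intersection numbers are given by `ℓ`-adic cycle classes: `F = ℚ_ℓ`,
`V = H^{2i}(𝒳_v̄, ℚ_ℓ(i))`, whose dual is the Borel–Moore homology of `𝒳_v̄`. -/
def Ladic (X : D.Model) (v : D.Place X) (i j : ℤ) : Prop :=
  ∃ (F : Type) (_ : Field F) (_ : CharZero F) (V : Type) (_ : AddCommGroup V) (_ : Module F V)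
    (_ : FiniteDimensional F V) (a : D.Ch X i →+ V) (b : D.Fib X v j →+ Module.Dual F V),
    ∀ (c : D.Ch X i) (z : D.Fib X v j), (D.num c z : F) = b z (a c)

/-- the places `v` over which some class in `Ch^i(𝒳)_{ℚ,0}` has an intersection number different
from zero with some cycle in `𝒳_v` of codimension `j` in `𝒳` -/
def bad (X : D.Model) (i j : ℤ) : Set (D.Place X) :=
  {v | ∃ c : D.Ch X i, D.IsHom c ∧ ∃ z : D.Fib X v j, D.num c z ≠ 0}

/-- Known properties of the Chow groups and pairings of one model. -/
structure Basic : Prop where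
  /-- restriction to the generic fibre is surjective (closures of cycles) -/
  surj : ∀ X i, Function.Surjective (D.gen (X := X) (i := i))
  /-- its kernel consists of the classes of cycles supported in closed fibres (localization) -/
  ker : ∀ X i, LinearMap.ker (D.res X i) = ⨆ v, LinearMap.range (D.inc X v i)
  /-- residue fields have at least two elements -/
  norm_gt : ∀ X v, 1 < D.norm X v
  /-- the Gillet–Soulé pairing with a cycle in `𝒳_v` is the intersection number times `log Nv` -/
  gs_fib : ∀ X i j, i + j = D.dim X + 1 → ∀ c : D.Ch X i, D.IsHom c → ∀ v (z : D.Fib X v j),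
    D.pair c (D.cls z) = Real.log (D.norm X v) * (D.num c z : ℝ)
  /-- cycles in different fibres do not meet -/
  disj : ∀ X v w i j, v ≠ w → i + j = D.dim X + 1 → ∀ (f : D.Fib X v i) (z : D.Fib X w j),
    D.num (D.cls f) z = 0
  /-- for almost all `v` (places of good reduction) the intersection numbers of all classes in
  `Ch^i(𝒳)_{ℚ,0}` with cycles in `𝒳_v` are zero -/
  good : ∀ X i j, i + j = D.dim X + 1 → (D.bad X i j).Finite
  /-- the intersection numbers are given by `ℓ`-adic cycle classes -/
  ell : ∀ X v i j, i + j = D.dim X + 1 → D.Ladic X v i j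

end Arith

end Pool.Agent.Q16.AC
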