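import Pool.Agent.Q16.AC.Crit
/-!
# Denominators
-/
set_option autoImplicit false

namespace Pool.Agent.Q16.AC

open Module

/-- as `exists_finite`, inside a subset -/
theorem exists_finite_sub {A B : Type*} [AddCommGroup A] [Module ℚ A] [AddCommGroup B] [Module ℚ B]
    (T : A →ₗ[ℚ] B →ₗ[ℚ] ℚ) {F V : Type*} [Field F] [CharZero F] [AddCommGroup V] [Module F V]
    [FiniteDimensional F V] (a : A →+ V) (b : B →+ Dual F V)
    (h : ∀ x y, ((T x y : ℚ) : F) = b y (a x)) (A0 : Set A) :
    ∃ s ⊆ A0, s.Finite ∧ ∀ y, (∀ x ∈ s, T x y = 0) → ∀ x ∈ A0, T x y = 0 := by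
  obtain ⟨t, ht, hspan, hind⟩ := exists_linearIndependent F (a '' A0)
  have htf : t.Finite := hind.setFinite
  choose! g hg using fun w (hw : w ∈ t) => ht hw
  refine ⟨g '' t, ?_, htf.image g, fun y hy x hx => ?_⟩
  · rintro _ ⟨w, hw, rfl⟩
    exact (hg w hw).1
  have h1 : a x ∈ Submodule.span F t := by
    rw [hspan]
    exact Submodule.subset_span ⟨x, hx, rfl⟩
  have h2 : ∀ w ∈ Submodule.span F t, b y w = 0 := by
    intro w hw
    induction hw using Submodule.span_induction with
    | mem w hw =>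
      rw [← (hg w hw).2, ← h, hy _ ⟨w, hw, rfl⟩, Rat.cast_zero]
    | zero => exact map_zero _
    | add w w' _ _ h h' => rw [map_add, h, h', add_zero]
    | smul r w _ h => rw [map_smul, h, smul_zero]
  have h3 := h2 _ h1
  rw [← h] at h3
  exact_mod_cast h3

/-- a dual family for finitely many linearly independent functionals -/
theorem exists_dual {B ι : Type*} [AddCommGroup B] [Module ℚ B] [Fintype ι] [DecidableEq ι]
    (L : ι → B →ₗ[ℚ] ℚ) (hL : LinearIndependent ℚ L) :
    ∃ y : ι → B, ∀ k l, L k (y l) = if k = l then 1 else 0 := by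
  have hsurj : LinearMap.range (LinearMap.pi L) = ⊤ := by
    by_contra hne
    obtain ⟨f, hf, hle⟩ := Submodule.exists_le_ker_of_lt_top _ (lt_top_iff_ne_top.2 hne)
    apply hf
    have h1 : ∑ k, f (Pi.single k 1) • L k = 0 := by
      ext y
      have h2 : f (LinearMap.pi L y) = 0 := hle ⟨y, rfl⟩
      rw [LinearMap.sum_apply, LinearMap.zero_apply, ← h2]
      have h3 : LinearMap.pi L y = ∑ k, L k y • (Pi.single k (1 : ℚ) : ι → ℚ) := by
        ext l
        simp [Finset.sum_apply, Pi.single_apply]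
      rw [h3, map_sum]
      refine Finset.sum_congr rfl fun k _ => ?_
      rw [map_smul, LinearMap.smul_apply, smul_eq_mul, smul_eq_mul, mul_comm]
    have h4 := Fintype.linearIndependent_iff.1 hL _ h1
    refine LinearMap.pi_ext' fun k => ?_
    ext
    simpa using h4 k
  have h5 : ∀ l, ∃ y, LinearMap.pi L y = Pi.single l (1 : ℚ) := fun l => by
    have : (Pi.single l (1 : ℚ) : ι → ℚ) ∈ LinearMap.range (LinearMap.pi L) := by
      rw [hsurj]
      trivial
    exact this
  choose y hy using h5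
  refine ⟨y, fun k l => ?_⟩
  have h6 := congrFun (hy l) k
  rw [LinearMap.pi_apply] at h6
  rw [h6, Pi.single_apply]

/-- For a pairing `T` which factors through a finite-dimensional space: there is one denominator `N`
for all functionals which are integral on the lattice of `B` and vanish on the kernel. -/
theorem exists_denominator {A B : Type*} [AddCommGroup A] [Module ℚ A] [AddCommGroup B]
    [Module ℚ B] (T : A →ₗ[ℚ] B →ₗ[ℚ] ℚ) {F V : Type*} [Field F] [CharZero F] [AddCommGroup V]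
    [Module F V] [FiniteDimensional F V] (a : A →+ V) (b : B →+ Dual F V)
    (h : ∀ x y, ((T x y : ℚ) : F) = b y (a x)) (AZ : AddSubgroup A) (BZ : AddSubgroup B)
    (hA : ∀ x, ∃ n : ℕ, 0 < n ∧ n • x ∈ AZ) (hB : ∀ y, ∃ n : ℕ, 0 < n ∧ n • y ∈ BZ) :
    ∃ N : ℕ, 0 < N ∧ ∀ φ : B →ₗ[ℚ] ℚ, (∀ y ∈ BZ, ∃ m : ℤ, φ y = m) →
      (∀ y, (∀ x, T x y = 0) → φ y = 0) → ∃ x ∈ AZ, ∀ y, T x y = N * φ y := by
  classical
  obtain ⟨s, hsA, hsf, hs⟩ := exists_finite_sub T a b h (AZ : Set A)
  obtain ⟨t, ht, hspan, hind⟩ := exists_linearIndependent ℚ (T '' s)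
  have htf : t.Finite := (hsf.image T).subset ht
  have : Fintype t := htf.fintype
  choose g hg1 hg2 using fun w : t => ht w.2
  obtain ⟨y, hy⟩ := exists_dual (fun w : t => (w : B →ₗ[ℚ] ℚ)) hind
  choose n hn0 hn using fun w : t => hB (y w)
  refine ⟨∏ w, n w, Finset.prod_pos fun w _ => hn0 w, fun φ hφ hφ0 => ?_⟩
  have h1 : φ ∈ Submodule.span ℚ (Set.range fun w : t => (w : B →ₗ[ℚ] ℚ)) := by
    refine mem_span_of_iInf_ker_le_ker fun z hz => ?_
    rw [Submodule.mem_iInf] at hz
    rw [LinearMap.mem_ker]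
    refine hφ0 z fun x => ?_
    have h2 : ∀ x ∈ s, T x z = 0 := by
      intro x hx
      have h3 : T x ∈ Submodule.span ℚ t := by
        rw [hspan]
        exact Submodule.subset_span ⟨x, hx, rfl⟩
      have h4 : ∀ w ∈ Submodule.span ℚ t, w z = 0 := by
        intro w hw
        induction hw using Submodule.span_induction with
        | mem w hw => exact hz ⟨w, hw⟩
        | zero => rfl
        | add w w' _ _ h h' => rw [LinearMap.add_apply, h, h', add_zero]
        | smul r w _ h => rw [LinearMap.smul_apply, h, smul_zero]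
      exact h4 _ h3
    obtain ⟨m, hm0, hm⟩ := hA x
    have h5 := hs z h2 _ hm
    rw [map_nsmul, LinearMap.smul_apply, smul_eq_zero] at h5
    exact h5.resolve_left hm0.ne'
  obtain ⟨c, hc⟩ := (Submodule.mem_span_range_iff_exists_fun ℚ).1 h1
  have hcy : ∀ l, φ (y l) = c l := by
    intro l
    rw [← hc, LinearMap.sum_apply]
    simp only [LinearMap.smul_apply, smul_eq_mul]
    rw [Finset.sum_eq_single_of_mem l (Finset.mem_univ _)]
    · rw [hy, if_pos rfl, mul_one]
    · intro k _ hk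
      rw [hy, if_neg hk, mul_zero]
  have hint : ∀ l, ∃ m : ℤ, ((∏ w, n w : ℕ) : ℚ) * c l = m := by
    intro l
    obtain ⟨m, hm⟩ := hφ _ (hn l)
    refine ⟨(∏ w ∈ Finset.univ.erase l, n w : ℕ) * m, ?_⟩
    rw [map_nsmul, hcy, nsmul_eq_mul] at hm
    rw [Int.cast_mul, ← hm, ← Finset.mul_prod_erase _ _ (Finset.mem_univ l)]
    push_cast
    ring
  choose m hm using hint
  refine ⟨∑ w, m w • g w, AddSubgroup.sum_mem _ fun w _ => AddSubgroup.zsmul_mem _
    (hsA (hg1 w)) _, fun z => ?_⟩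
  rw [map_sum, LinearMap.sum_apply, ← hc, LinearMap.sum_apply, Finset.mul_sum]
  refine Finset.sum_congr rfl fun w _ => ?_
  rw [map_zsmul, LinearMap.smul_apply, hg2, zsmul_eq_mul, ← hm, LinearMap.smul_apply, smul_eq_mul]
  ring

end Pool.Agent.Q16.AC
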