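import Pool.Agent.Q16.AC.Crit
/-!
# Alterations and projective bundles
-/
set_option autoImplicit false

namespace Pool.Agent.Q16.AC

universe u

namespace Arith

variable (D : Arith.{u})

/-- The maps on Chow groups of an alteration `𝒴 → 𝒳` of degree `n` (generically finite, proper,
surjective). -/
structure Alteration (Y X : D.Model) where
  dim_eq : D.dim Y = D.dim X
  /-- pull-back -/
  pull : ∀ i, D.Ch X i → D.Ch Y i
  /-- push-forward -/
  push : ∀ i, D.Ch Y i → D.Ch X i
  /-- push-forward is additive -/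
  push_sub : ∀ i a b, push i (a - b) = push i a - push i b
  /-- the degree -/
  n : ℚ
  n_ne : n ≠ 0
  push_pull : ∀ i c, push i (pull i c) = n • c
  /-- fibral classes are pulled back to fibral classes -/
  pull_fin : ∀ i c, D.IsFin c → D.IsFin (pull i c)
  /-- fibral classes are pushed forward to fibral classes -/
  push_fin : ∀ i c, D.IsFin c → D.IsFin (push i c)
  /-- pull-back preserves cohomologically trivial classes -/
  pull_hom : ∀ i c, D.IsHom c → D.IsHom (pull i c)
  /-- the projection formula -/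
  proj : ∀ i j, i + j = D.dim X + 1 → ∀ (y : D.Ch Y i) (z : D.Ch X j), D.IsHom y → D.IsFin z →
    D.pair (push i y) z = D.pair y (pull j z)

/-- `𝒫 = 𝒳 × P^m`: the projective bundle formula `Ch^k(𝒫) = ⊕ Ch^{k-t}(𝒳) h^t`, `0 ≤ t ≤ m`. -/
structure IsBundle (m : ℕ) (P X : D.Model) where
  dim_eq : D.dim P = D.dim X + m
  /-- the coefficients of the powers of the hyperplane class -/
  e : ∀ k, D.Ch P k → ∀ t : Fin (m + 1), D.Ch X (k - (t : ℕ))
  bij : ∀ k, Function.Bijective (e k)
  e_sub : ∀ k a b t, e k (a - b) t = e k a t - e k b t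
  fin_iff : ∀ k c, D.IsFin c ↔ ∀ t, D.IsFin (e k c t)
  hom_iff : ∀ k c, D.IsHom c ↔ ∀ t, D.IsHom (e k c t)
  gs_eq : ∀ k l, k + l = D.dim P + 1 → ∀ a b, D.IsHom a → D.IsFin b →
    D.pair a b = ∑ t : Fin (m + 1), D.pair (e k a t) (e l b (Fin.rev t))

variable {D}

theorem Alteration.lifts {Y X : D.Model} (h : D.Basic) (f : D.Alteration Y X) {i j : ℤ}
    (hij : i + j = D.dim X + 1) (hY : D.Lifts Y i j) : D.Lifts X i j := by
  intro c hc
  obtain ⟨c1, rfl⟩ := h.surj X i c
  have hc1 : D.IsHom (f.pull i c1) := f.pull_hom i c1 hc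
  obtain ⟨y, hy, hyz⟩ := hY _ hc1
  have hy' : D.gen y = D.gen (f.pull i c1) := hy
  have hyh : D.IsHom y := by
    rw [isHom_iff, hy']
    exact hc1
  refine ⟨f.n⁻¹ • f.push i y, ?_, fun z hz => ?_⟩
  · have h1 : D.IsFin (y - f.pull i c1) := isFin_sub_iff.2 hy'
    have h2 := f.push_fin i _ h1
    rw [f.push_sub, f.push_pull, isFin_sub_iff] at h2
    rw [gen_smul, h2, gen_smul, smul_smul, inv_mul_cancel₀ f.n_ne, one_smul]
  · rw [pair_smul_left, f.proj i j hij y z hyh hz, hyz _ (f.pull_fin j z hz), mul_zero]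

theorem IsBundle.lifts_iff {m : ℕ} {P X : D.Model} (h : D.Basic) (f : D.IsBundle m P X)
    {k l : ℤ} (hkl : k + l = D.dim P + 1) :
    D.Lifts P k l ↔ ∀ t : Fin (m + 1), D.Lifts X (k - (t : ℕ)) (l - (Fin.rev t : ℕ)) := by
  constructor
  · intro hP t c hc
    obtain ⟨c1, rfl⟩ := h.surj X _ c
    obtain ⟨a, hea⟩ := (f.bij k).2 (Pi.single t c1)
    have ht : D.IsHom a := by
      rw [f.hom_iff, hea]
      intro s
      by_cases hs : s = t
      · subst hs
        rw [Pi.single_eq_same]
        exact hc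
      · rw [Pi.single_eq_of_ne hs, isHom_iff, gen_zero]
        exact zero_mem _
    obtain ⟨b, hb, hbz⟩ := hP _ ht
    have hb' : D.gen b = D.gen a := hb
    have hbh : D.IsHom b := by
      rw [isHom_iff, hb']
      exact ht
    refine ⟨f.e k b t, ?_, fun z hz => ?_⟩
    · have h1 : D.IsFin (b - a) := isFin_sub_iff.2 hb'
      have h2 := (f.fin_iff k _).1 h1 t
      rw [f.e_sub, hea, Pi.single_eq_same, isFin_sub_iff] at h2
      exact h2
    · obtain ⟨w, hew⟩ := (f.bij l).2 (Pi.single (Fin.rev t) z)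
      have hw0 : D.IsFin w := by
        rw [f.fin_iff, hew]
        intro s
        by_cases hs : s = Fin.rev t
        · subst hs
          rw [Pi.single_eq_same]
          exact hz
        · rw [Pi.single_eq_of_ne hs, isFin_iff, gen_zero]
      have h1 := hbz w hw0
      rw [f.gs_eq k l hkl b w hbh hw0, hew,
        Finset.sum_eq_single_of_mem t (Finset.mem_univ _), Pi.single_eq_same] at h1
      · exact h1
      · intro s _ hs
        rw [Pi.single_eq_of_ne (fun e => hs (Fin.rev_injective e)), pair_zero_right]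
  · intro hX c hc
    obtain ⟨a, rfl⟩ := h.surj P k c
    choose b hb hbz using fun t => hX t _ ((f.hom_iff k a).1 hc t)
    obtain ⟨b', hb'⟩ := (f.bij k).2 b
    have hg : D.gen b' = D.gen a := by
      rw [← isFin_sub_iff, f.fin_iff]
      intro t
      rw [f.e_sub, hb', isFin_sub_iff]
      exact hb t
    refine ⟨b', hg, fun w hw => ?_⟩
    have h1 : D.IsHom b' := by
      rw [isHom_iff, hg]
      exact hc
    rw [f.gs_eq k l hkl b' w h1 hw]
    refine Finset.sum_eq_zero fun t _ => ?_
    rw [hb']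
    exact hbz t _ ((f.fin_iff l w).1 hw _)

end Arith

end Pool.Agent.Q16.AC
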